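import Pool.Agent.H421Z.TExt.Euclid
import Pool.Agent.Results.MP_195fab_gt.InfiniteCardinality

set_option autoImplicit false

namespace Pool.Agent.Results.MP_195fab_gt.ACardinality

/-- `C_p(Z)`: the set of continuous functions `Z → ℝ` with the topology of pointwise convergence,
i.e. the subspace topology from the product `Z → ℝ`. -/
abbrev Cp (Z : Type*) [TopologicalSpace Z] := {f : Z → ℝ // Continuous f}

/-- If `C_p(C_p(X))` and `C_p(C_p(Y))` are homeomorphic, then `X` and `Y` have the same
cardinality (finite or infinite): there is a bijection between them. -/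
theorem result (X Y : Type*) [TopologicalSpace X] [T35Space X] [TopologicalSpace Y] [T35Space Y]
    (h : Nonempty (Cp (Cp X) ≃ₜ Cp (Cp Y))) : Nonempty (X ≃ Y) := by
  obtain ⟨h1, h2⟩ := InfiniteCardinality.result X Y h
  rcases finite_or_infinite Y with hY | hY
  · have hX : Finite X := h1.mpr hY
    obtain ⟨h⟩ := h
    obtain ⟨n, ⟨eX⟩⟩ := Finite.exists_equiv_fin X
    obtain ⟨m, ⟨eY⟩⟩ := Finite.exists_equiv_fin Y
    let H := ((InfiniteCardinality.cpCongr (H421Z.TExt.cpFin eX)).symm.trans h).trans
      (InfiniteCardinality.cpCongr (H421Z.TExt.cpFin eY))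
    have a1 := H421Z.TExt.finrank_le_of_retract H H.symm H.continuous H.symm.continuous
      H.symm_apply_apply
    have a2 := H421Z.TExt.finrank_le_of_retract H.symm H H.symm.continuous H.continuous
      H.apply_symm_apply
    simp only [finrank_euclideanSpace, Fintype.card_fin] at a1 a2
    obtain rfl : n = m := le_antisymm a1 a2
    exact ⟨eX.trans eY.symm⟩
  · exact h2 hY

end Pool.Agent.Results.MP_195fab_gt.ACardinality
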